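import Pool.Agent.Helper45.U4.St1

/-!
# Project U4 (MP_a1f43d_co), module THR: three generators on a subspace of codimension one
-/

set_option autoImplicit false

open Module Classical
open scoped LinearAlgebra.Projectivization

namespace Pool.Agent.Helper38.U4

open Pool.Agent.Helper45.U4 Pool.Agent.Helper53.PB

section
variable {F V : Type} [Field F] [AddCommGroup V] [Module F V] [FiniteDimensional F V]
  {P : Polar F V} {r : ℕ}

private theorem lt_finrank {E : Submodule F V} {x : V} (hx : x ∉ E) :
    finrank F E < finrank F (E ⊔ Submodule.span F {x} : Submodule F V) := by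
  apply Submodule.finrank_lt_finrank_of_lt
  refine lt_of_le_of_ne le_sup_left ?_
  intro h
  apply hx
  rw [h]
  exact Submodule.mem_sup_right (Submodule.mem_span_singleton_self x)

private theorem ext_eq (hg : ∀ U, P.Gen U → finrank F U = r) {E : Submodule F V}
    (hE : finrank F E + 1 = r) {x : V} (hx : x ∉ E) {W : Submodule F V} (hW : P.Gen W)
    (hEW : E ≤ W) (hxW : x ∈ W) : E ⊔ Submodule.span F {x} = W := by
  have hle : E ⊔ Submodule.span F {x} ≤ W :=
    sup_le hEW ((Submodule.span_singleton_le_iff_mem x W).2 hxW)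
  apply Submodule.eq_of_le_of_finrank_le hle
  have h1 := lt_finrank hx
  rw [hg W hW]
  omega

/-- a generator different from `U` contains a vector outside of `U` -/
private theorem exists_out {U W : Submodule F V} (hU : P.Gen U) (hW : P.Gen W) (h : W ≠ U) :
    ∃ x ∈ W, x ∉ U := by
  by_contra hc
  push Not at hc
  exact h (hW.2 U hU.1 hc).symm

private theorem exists_thr (hg : ∀ U, P.Gen U → finrank F U = r)
    (hN : ∀ U, P.Gen U → Nonempty (Nb P U Bool)) {E : Submodule F V} (hTS : P.TS E)
    (hE : finrank F E + 1 = r) : ∃ U0 U1 U2, Thr P E U0 U1 U2 := by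
  obtain ⟨U, hU, hEU⟩ := Polar.exists_gen_ge hTS
  obtain ⟨N⟩ := hN U hU
  have hUr := hg U hU
  set E' : Submodule F U := E.comap U.subtype with hE'
  have hE'r : finrank F E' = finrank F E := (Submodule.comapSubtypeEquivOfLe hEU).finrank_eq
  -- a vector of `U` outside of `E`
  obtain ⟨u₁, hu₁⟩ : ∃ u : U, u ∉ E' := by
    by_contra hc
    push Not at hc
    have h1 : E' = ⊤ := by
      rw [eq_top_iff]
      intro u _
      exact hc u
    rw [h1, finrank_top] at hE'r
    omega
  obtain ⟨g, hg1, hg2⟩ := Submodule.exists_le_ker_of_notMem hu₁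
  have hg0 : g ≠ 0 := by
    rintro rfl
    exact hg1 rfl
  have hker : E' = LinearMap.ker g := by
    apply Submodule.eq_of_le_of_finrank_le hg2
    have h1 := Module.Dual.finrank_ker_add_one_of_ne_zero hg0
    omega
  set G : ℙ F (Dual F U) := Projectivization.mk F g hg0 with hG
  have hGrep : ∀ u : U, G.rep u = 0 ↔ (u : V) ∈ E := by
    intro u
    obtain ⟨a, ha⟩ := Projectivization.exists_smul_eq_mk_rep F g hg0
    have h1 : G.rep u = a • g u := by
      rw [hG, ← ha]
      rfl
    have h2 : (u : V) ∈ E ↔ u ∈ E' := Iff.rfl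
    rw [h1, h2, hker, LinearMap.mem_ker, Units.smul_def, smul_eq_mul]
    constructor
    · intro h
      exact (mul_eq_zero.1 h).resolve_left a.ne_zero
    · intro h
      rw [h, mul_zero]
  have hle : ∀ b : Bool, E ≤ N.nb (b, G) := by
    intro b x hx
    exact (N.inU (b, G) ⟨x, hEU hx⟩).2 ((hGrep ⟨x, hEU hx⟩).2 hx)
  have hinf : ∀ b : Bool, ∀ x, x ∈ U → x ∈ N.nb (b, G) → x ∈ E := by
    intro b x hxU hx
    exact (hGrep ⟨x, hxU⟩).1 ((N.inU (b, G) ⟨x, hxU⟩).1 hx)
  refine ⟨U, N.nb (false, G), N.nb (true, G), hU, N.gen _, N.gen _, ?_, ?_, ?_, ?_⟩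
  · exact le_antisymm (fun x hx => hinf false x hx.1 hx.2) (le_inf hEU (hle false))
  · exact le_antisymm (fun x hx => hinf true x hx.1 hx.2) (le_inf hEU (hle true))
  · refine le_antisymm (fun x hx => ?_) (le_inf (hle false) (hle true))
    by_cases hxU : x ∈ U
    · exact hinf false x hxU hx.1
    · exfalso
      obtain ⟨p, -, hp⟩ := N.out x ((N.gen (false, G)).1.1 x hx.1) hxU
      have h1 := (hp (false, G) hx.1).trans (hp (true, G) hx.2).symm
      exact Bool.false_ne_true (congrArg Prod.fst h1)
  · intro W hW hEW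
    by_cases hWU : W = U
    · exact Or.inl hWU
    · right
      obtain ⟨x, hxW, hxU⟩ := exists_out hU hW hWU
      obtain ⟨p, hp, -⟩ := N.out x (hW.1.1 x hxW) hxU
      have hperp := N.perp p x hp hxU
      have hEp : E' ≤ LinearMap.ker p.2.rep := by
        intro u hu
        exact (hperp u).1 (hW.1.2 x hxW (u : V) (hEW hu))
      -- the functionals are proportional
      have hpG : p.2 = G := by
        have h1 : p.2.rep = (p.2.rep u₁ / g u₁) • g := by
          apply LinearMap.ext
          intro u
          have h2 : u - (g u / g u₁) • u₁ ∈ E' := by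
            rw [hker, LinearMap.mem_ker, map_sub, map_smul, smul_eq_mul,
              div_mul_cancel₀ _ hg1, sub_self]
          have h3 : p.2.rep (u - (g u / g u₁) • u₁) = 0 := hEp h2
          rw [map_sub, map_smul, smul_eq_mul, sub_eq_zero] at h3
          rw [h3, LinearMap.smul_apply, smul_eq_mul]
          field_simp
        rw [← p.2.mk_rep, hG, Projectivization.mk_eq_mk_iff']
        exact ⟨_, h1.symm⟩
      have hxE : x ∉ E := fun h => hxU (hEU h)
      have hp' : p = (p.1, G) := by rw [← hpG]
      have hle' : E ≤ N.nb p := by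
        rw [hp']
        exact hle p.1
      have hWp : W = N.nb p := by
        rw [← ext_eq hg hE hxE hW hEW hxW, ext_eq hg hE hxE (N.gen p) hle' hp]
      rcases hb : p.1 with _ | _
      · left
        rw [hWp, hp', hb]
      · right
        rw [hWp, hp', hb]

private theorem np_eq [Finite V] (hg : ∀ U, P.Gen U → finrank F U = r) {E : Submodule F V}
    (hTS : P.TS E) (hE : finrank F E + 1 = r) {U0 U1 U2 : Submodule F V}
    (h : Thr P E U0 U1 U2) (f : ℙ F V → ℤ) (hf : Sup P f) :
    np P f E = tf f U0 + tf f U1 + tf f U2 - 2 * tf f E := by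
  have hle0 : E ≤ U0 := by rw [← h.i01]; exact inf_le_left
  have hle1 : E ≤ U1 := by rw [← h.i01]; exact inf_le_right
  have hle2 : E ≤ U2 := by rw [← h.i02]; exact inf_le_right
  have htf : ∀ U : Submodule F V, tf f U = ∑ y, if y.rep ∈ U then f y else 0 := by
    intro U
    unfold tf pts
    rw [Finset.sum_filter]
  have hnp : np P f E = ∑ y, if E ≤ LinearMap.ker (P.f y.rep) then f y else 0 := by
    unfold np
    rw [Finset.sum_filter]
  rw [hnp, htf U0, htf U1, htf U2, htf E, Finset.mul_sum, ← Finset.sum_add_distrib,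
    ← Finset.sum_add_distrib, ← Finset.sum_sub_distrib]
  apply Finset.sum_congr rfl
  intro y _
  by_cases hy : P.sing y.rep
  · by_cases hyE : y.rep ∈ E
    · have h1 : E ≤ LinearMap.ker (P.f y.rep) := fun x hx => hTS.2 _ hyE x hx
      rw [if_pos h1, if_pos (hle0 hyE), if_pos (hle1 hyE), if_pos (hle2 hyE), if_pos hyE]
      ring
    · rw [if_neg hyE]
      by_cases h1 : E ≤ LinearMap.ker (P.f y.rep)
      · rw [if_pos h1]
        have hTS' : P.TS (E ⊔ Submodule.span F {y.rep}) :=
          hTS.sup_span hy fun x hx => P.symm _ _ (h1 hx)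
        have hfr : finrank F (E ⊔ Submodule.span F {y.rep} : Submodule F V) = r := by
          have h2 := lt_finrank hyE
          have h3 := Polar.gen_finrank_le h.g0 hTS'
          rw [hg U0 h.g0] at h3
          omega
        have hgen : P.Gen (E ⊔ Submodule.span F {y.rep}) := Polar.gen_of_finrank hg hTS' hfr
        have hyW : y.rep ∈ E ⊔ Submodule.span F {y.rep} :=
          Submodule.mem_sup_right (Submodule.mem_span_singleton_self _)
        have n01 : ¬ (y.rep ∈ U0 ∧ y.rep ∈ U1) := fun hh => hyE (by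
          rw [← h.i01]; exact ⟨hh.1, hh.2⟩)
        have n02 : ¬ (y.rep ∈ U0 ∧ y.rep ∈ U2) := fun hh => hyE (by
          rw [← h.i02]; exact ⟨hh.1, hh.2⟩)
        have n12 : ¬ (y.rep ∈ U1 ∧ y.rep ∈ U2) := fun hh => hyE (by
          rw [← h.i12]; exact ⟨hh.1, hh.2⟩)
        rcases h.all _ hgen le_sup_left with hW | hW | hW
        · rw [hW] at hyW
          rw [if_pos hyW, if_neg fun h' => n01 ⟨hyW, h'⟩, if_neg fun h' => n02 ⟨hyW, h'⟩]
          ring
        · rw [hW] at hyW
          rw [if_pos hyW, if_neg fun h' => n01 ⟨h', hyW⟩, if_neg fun h' => n12 ⟨hyW, h'⟩]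
          ring
        · rw [hW] at hyW
          rw [if_pos hyW, if_neg fun h' => n02 ⟨h', hyW⟩, if_neg fun h' => n12 ⟨h', hyW⟩]
          ring
      · have hno : ∀ U : Submodule F V, P.Gen U → E ≤ U → y.rep ∉ U := fun U hU hEU hyU =>
          h1 fun x hx => hU.1.2 _ hyU x (hEU hx)
        rw [if_neg h1, if_neg (hno U0 h.g0 hle0), if_neg (hno U1 h.g1 hle1),
          if_neg (hno U2 h.g2 hle2)]
        ring
  · rw [hf y hy]
    simp

end

theorem hTHR (h1 : StHNB) : StTHR := by
  intro F V _ _ _ _ _ _ φ r hs E hTS hE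
  exact ⟨exists_thr hs.gen (h1 φ r hs) hTS hE,
    fun U0 U1 U2 h f hf => np_eq hs.gen hTS hE h f hf⟩

end Pool.Agent.Helper38.U4
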